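import Pool.Agent.H31.BR

set_option autoImplicit false

open Pool.Agent.H31 TopologicalSpace

theorem Pool.Agent.Results.MP_bab9cd_gt.Neg.result :
    ∃ (X : Type) (_ : TopologicalSpace X), T2Space X ∧ ParacompactSpace X ∧
      (∀ x : X, ¬ IsOpen ({x} : Set X)) ∧
      ∃ B : Set (Set X), IsTopologicalBasis B ∧
        ∀ B0 B1 : Set (Set X), B0 ⊆ B → B1 ⊆ B → Disjoint B0 B1 →
          ¬ (IsTopologicalBasis B0 ∧ IsTopologicalBasis B1) :=
  ⟨BR.X, inferInstance, inferInstance, inferInstance, BR.no_isolated, _, BR.basis,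
    fun B0 B1 h0 h1 hd h => BR.not_res B0 B1 h0 h1 hd h.1 h.2⟩
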